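import Pool.Agent.H31.FW.TargetsL
import Pool.Agent.H48.BG.RT

/-!
# (CN) the number of the stationary points modulo a prime power
-/

set_option autoImplicit false

open NumberField

namespace Pool.Agent.H52.FW.CN

open Pool.Agent.H31.FW Pool.Agent.H23.LB
open Pool.Agent.H48.BG (dv1 mul_nmem q_pos fin_q cls ncard_triv)

variable {K : Type} [Field K] [NumberField K] {P : Ideal (𝓞 K)}

/-- a set in the union of two classes modulo `P ^ c` -/
theorem two (h0 : P ≠ ⊥) {e c : ℕ} (hc : c ≤ e) (S : Set (𝓞 K ⧸ P ^ e)) (y y' : 𝓞 K)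
    (hS : ∀ X : 𝓞 K, Ideal.Quotient.mk (P ^ e) X ∈ S → X - y ∈ P ^ c ∨ X - y' ∈ P ^ c) :
    S.ncard ≤ 2 * Ideal.absNorm P ^ (e - c) := by
  have hfin := fin_q (K := K) h0 e
  have hle : P ^ e ≤ P ^ c := Ideal.pow_le_pow_right hc
  have hcl : ∀ v : 𝓞 K,
      ({w | ∃ X : 𝓞 K, Ideal.Quotient.mk (P ^ e) X = w ∧ X - v ∈ P ^ c} :
        Set (𝓞 K ⧸ P ^ e)).ncard ≤ Ideal.absNorm P ^ (e - c) := by
    intro v
    apply cls h0
    rintro u u' ⟨X, hX, hX'⟩ ⟨Y, hY, hY'⟩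
    have h1 := hle (Ideal.Quotient.eq.mp hX)
    have h2 := hle (Ideal.Quotient.eq.mp hY)
    have h3 := sub_mem (sub_mem hX' hY') (sub_mem h1 h2)
    have h4 : X - v - (Y - v) - (X - u - (Y - u')) = u - u' := by ring
    rwa [h4] at h3
  have hsub : S ⊆ {w | ∃ X : 𝓞 K, Ideal.Quotient.mk (P ^ e) X = w ∧ X - y ∈ P ^ c} ∪
      {w | ∃ X : 𝓞 K, Ideal.Quotient.mk (P ^ e) X = w ∧ X - y' ∈ P ^ c} := by
    intro w hw
    obtain ⟨X, rfl⟩ := Ideal.Quotient.mk_surjective w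
    rcases hS X hw with h | h
    · exact Or.inl ⟨X, rfl, h⟩
    · exact Or.inr ⟨X, rfl, h⟩
  calc S.ncard ≤ _ := Set.ncard_le_ncard hsub (Set.toFinite _)
    _ ≤ _ := Set.ncard_union_le _ _
    _ ≤ Ideal.absNorm P ^ (e - c) + Ideal.absNorm P ^ (e - c) := add_le_add (hcl y) (hcl y')
    _ = 2 * Ideal.absNorm P ^ (e - c) := by ring

/-- the stationary points -/
def SP (P : Ideal (𝓞 K)) (e i : ℕ) (h y : 𝓞 K) : Set (𝓞 K ⧸ P ^ e) :=
  {x | ∀ z ∈ (P ^ i).map (Ideal.Quotient.mk (P ^ e)),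
        z * Ideal.Quotient.mk (P ^ e) h * ((x - Ideal.Quotient.mk (P ^ e) y) *
          (x + Ideal.Quotient.mk (P ^ e) y + Ideal.Quotient.mk (P ^ e) h)) = 0}

theorem mem_SP (hP : P.IsPrime) (h0 : P ≠ ⊥) {e i a : ℕ} {h y : 𝓞 K} (hh : h ∉ P ^ (a + 1))
    {X : 𝓞 K} (hX : Ideal.Quotient.mk (P ^ e) X ∈ SP P e i h y) :
    (X - y) * (X + y + h) ∈ P ^ (e - (i + a)) := by
  obtain ⟨z, hz, hz'⟩ := Ideal.exists_mem_pow_notMem_pow_succ P h0 hP.ne_top i
  have h1 := hX _ (Ideal.mem_map_of_mem _ hz)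
  rw [← map_sub, ← map_add, ← map_add, ← map_mul, ← map_mul, ← map_mul,
    Ideal.Quotient.eq_zero_iff_mem] at h1
  exact dv1 hP h0 (mul_nmem hP h0 hz' hh) h1

theorem partA (hP : P.IsPrime) (h0 : P ≠ ⊥) {e i a t : ℕ} {h y : 𝓞 K} (hh : h ∉ P ^ (a + 1))
    (hy : 2 * y + h ∉ P ^ (t + 1)) :
    (SP P e i h y).ncard ≤ 2 * Ideal.absNorm P ^ (t + i + a) := by
  have hq := q_pos h0
  rcases Nat.lt_or_ge (t + i + a) e with he | he
  swap
  · calc (SP P e i h y).ncard ≤ Ideal.absNorm P ^ e := ncard_triv h0 e _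
      _ ≤ Ideal.absNorm P ^ (t + i + a) := Nat.pow_le_pow_right hq he
      _ ≤ 2 * Ideal.absNorm P ^ (t + i + a) := Nat.le_mul_of_pos_left _ (by norm_num)
  · have h1 := two h0 (c := e - (i + a) - t) (by omega) (SP P e i h y) y (-(y + h)) (by
      intro X hX
      have h2 := mem_SP hP h0 hh hX
      by_cases h3 : X - y ∈ P ^ (t + 1)
      · by_cases h4 : X + y + h ∈ P ^ (t + 1)
        · refine absurd ?_ hy
          have h5 := sub_mem h4 h3
          have h6 : X + y + h - (X - y) = 2 * y + h := by ring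
          rwa [h6] at h5
        · rw [mul_comm] at h2
          exact Or.inl (dv1 hP h0 h4 h2)
      · right
        have h5 := dv1 hP h0 h3 h2
        have h6 : X - -(y + h) = X + y + h := by ring
        rwa [h6])
    rwa [show e - (e - (i + a) - t) = t + i + a by omega] at h1

theorem partB (hP : P.IsPrime) (h0 : P ≠ ⊥) {e i a : ℕ} {h y : 𝓞 K} (hh : h ∉ P ^ (a + 1))
    (he : e = i + a + 1) :
    (SP P e i h y).ncard ≤ 2 * Ideal.absNorm P ^ (i + a) := by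
  have h1 := two h0 (c := 1) (by omega) (SP P e i h y) y (-(y + h)) (by
    intro X hX
    have h2 := mem_SP hP h0 hh hX
    rw [show e - (i + a) = 1 by omega, pow_one] at h2
    rw [pow_one]
    rcases hP.mem_or_mem h2 with h3 | h3
    · exact Or.inl h3
    · right
      have h6 : X - -(y + h) = X + y + h := by ring
      rwa [h6])
  rwa [show e - 1 = i + a by omega] at h1

theorem pf_CN : Q_CN := by
  intro K _ _ P hP h0 e i a t h y _ hh
  refine ⟨fun hy => ?_, fun he => ?_⟩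
  · have h1 := partA (i := i) (e := e) hP h0 hh hy
    have h2 : (((SP P e i h y).ncard : ℕ) : ℝ) ≤ ((2 * Ideal.absNorm P ^ (t + i + a) : ℕ) : ℝ) :=
      Nat.cast_le.mpr h1
    push_cast at h2
    exact h2
  · have h1 := partB (y := y) hP h0 hh he
    have h2 : (((SP P e i h y).ncard : ℕ) : ℝ) ≤ ((2 * Ideal.absNorm P ^ (i + a) : ℕ) : ℝ) :=
      Nat.cast_le.mpr h1
    push_cast at h2
    exact h2

end Pool.Agent.H52.FW.CN
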